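import Pool.Agent.MP_856573_co.H74.Bas

/-! The service theorem by induction along the separating cut triangles, and the closed curve. -/

namespace Pool.Agent.MP_856573_co.H74

open Set
open Pool.Agent.MP_31805c_co.H93 (Conn)

namespace ASM

variable {V : Type} [DecidableEq V] {G : SimpleGraph V} {D T0 Hb T : Finset V}
  {F C : Finset (Finset V)}

theorem mem_cx {x : Finset V} : x ∈ Cx F ↔ ∃ f ∈ F, x ⊆ f ∧ x.Nonempty := by
  simp only [Cx, Finset.mem_biUnion, Finset.mem_erase, Finset.mem_powerset,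
    Finset.nonempty_iff_ne_empty, and_comm]

theorem inn_sub : Inn G D T0 T ⊆ D := by
  classical
  exact Finset.filter_subset _ _

theorem inn_T {v : V} (h : v ∈ Inn G D T0 T) : v ∉ T := by
  classical
  exact (Finset.mem_filter.1 h).2.1

theorem inn_root {v : V} (h : v ∈ Inn G D T0 T) : v ∉ T0 := by
  classical
  exact fun h0 => (Finset.mem_filter.1 h).2.2 v h0 (inn_T h) (Conn.refl _ _)

theorem not_lt_self : ¬ Lt (Inn G D T0) T T := fun ⟨_, h1, h2⟩ => inn_T h2 h1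

omit [DecidableEq V] in
theorem ex_out {T T' : Finset V} (h : T.card = 3) (h' : T'.card = 3) (hne : T ≠ T') :
    ¬ T ⊆ T' := fun hs => hne (Finset.eq_of_subset_of_card_le hs (by omega))

theorem face_of_adj (h : Tri G D F) {u v : V} (hu : u ∈ D) (hv : v ∈ D) (e : G.Adj u v) :
    ∃ f ∈ F, u ∈ f ∧ v ∈ f := by
  obtain ⟨f, hf⟩ := Finset.card_pos.1 (show 0 < _ by rw [h.two u hu v hv e]; norm_num)
  exact ⟨f, Finset.mem_filter.1 hf⟩

theorem cx_of_sub (h : Tri G D F) (hT : T3 G D T) {x : Finset V} (hx : x ⊆ T) (hne : x ≠ T)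
    (h0 : x.Nonempty) : x ∈ Cx F := by
  obtain ⟨w, hw, hwx⟩ := Finset.exists_of_ssubset (hx.ssubset_of_ne hne)
  obtain ⟨u, v, huv, e⟩ := Finset.card_eq_two.1
    (show (T.erase w).card = 2 by rw [Finset.card_erase_of_mem hw, hT.2.card_eq])
  have hu : u ∈ T := Finset.mem_of_mem_erase (e ▸ Finset.mem_insert_self _ _)
  have hv : v ∈ T := Finset.mem_of_mem_erase (a := w) (by rw [e]; simp)
  obtain ⟨f, hf, h1, h2⟩ := face_of_adj h (hT.1 hu) (hT.1 hv) (hT.2.isClique hu hv huv)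
  refine mem_cx.2 ⟨f, hf, fun y hy => ?_, h0⟩
  have : y ∈ T.erase w := Finset.mem_erase.2 ⟨fun e' => hwx (e' ▸ hy), hx hy⟩
  rw [e, Finset.mem_insert, Finset.mem_singleton] at this
  rcases this with rfl | rfl
  exacts [h1, h2]

theorem cx_vertex (h : Tri G D F) {v : V} (hv : v ∈ D) : {v} ∈ Cx F := by
  obtain ⟨w, hw, hne⟩ := Finset.exists_mem_ne (show 1 < D.card by have := h.four; omega) v
  obtain ⟨a, b, c1, c2, c3, c4, c5⟩ := conn_exit (X := {v}) (h.conn w hw v hv) hne rfl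
  obtain rfl : b = v := c4
  obtain ⟨f, hf, -, h2⟩ := face_of_adj h (c1.mem ⟨hw, hne⟩).1 hv c5
  exact mem_cx.2 ⟨f, hf, by simpa using h2, by simp⟩

omit [DecidableEq V] in
theorem st_card {x y : Finset V} (h : St Hb x y) : x.card = 1 ∨ x.card = 2 := by
  rcases h.2 with h | h | h <;> omega

section
variable [Fintype V] (sp : StmtSPLIT) (lm : StmtLAM) (c : Cfg G D F T0 Hb C) (hT : T ∈ C)
include lm c hT

theorem up {T1 T' : Finset V} (hT' : T' ∈ C) (h : Lt (Inn G D T0) T1 T')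
    (h' : Lt (Inn G D T0) T' T) : Lt (Inn G D T0) T1 T := by
  obtain ⟨v, h1, h2⟩ := h
  exact ⟨v, h1, (lm.sub V G D F T0 T' T c.tri c.root (c.cT _ hT').1 (c.cT _ hT).1 h').2 h2⟩

theorem lt_out {T1 T' : Finset V} (h1 : ¬ Lt (Inn G D T0) T1 T) (hT' : T' ∈ C)
    (h' : ¬ Lt (Inn G D T0) T' T) :
    Lt (Inn G (D \ Inn G D T0 T) T0) T1 T' ↔ Lt (Inn G D T0) T1 T' := by
  unfold Lt
  rw [lm.cout V G D F T0 T T' c.tri c.root (c.cT _ hT).1 (c.cT _ hT).2 (c.cT _ hT').1 h']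
  exact ⟨fun ⟨v, a, b⟩ => ⟨v, a, (Finset.mem_sdiff.1 b).1⟩,
    fun ⟨v, a, b⟩ => ⟨v, a, Finset.mem_sdiff.2 ⟨b, fun e => h1 ⟨v, a, e⟩⟩⟩⟩

theorem lt_in {T1 T' : Finset V} (hT' : T' ∈ C) (h' : Lt (Inn G D T0) T' T) :
    Lt (Inn G (T ∪ Inn G D T0 T) T) T1 T' ↔ Lt (Inn G D T0) T1 T' := by
  unfold Lt
  rw [lm.cin V G D F T0 T T' c.tri c.root (c.cT _ hT).1 (c.cT _ hT').1 h']

include sp

theorem cfg_out (hF : T ∉ F) {C' : Finset (Finset V)}
    (hC : ∀ x, x ∈ C' ↔ x ∈ C ∧ ¬ Lt (Inn G D T0) x T) :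
    Cfg G (D \ Inn G D T0 T) (insert T (F.filter fun f => Disjoint f (Inn G D T0 T))) T0 Hb C' := by
  have t3 : ∀ T', T3 G (D \ Inn G D T0 T) T' → T3 G D T' ∧ Disjoint T' (Inn G D T0 T) :=
    fun T' h => ⟨⟨h.1.trans Finset.sdiff_subset, h.2⟩, (Finset.subset_sdiff.1 h.1).2⟩
  refine ⟨sp.out V G D F T0 T c.tri c.root (c.cT _ hT).1 hF,
    Finset.mem_insert_of_mem (Finset.mem_filter.2 ⟨c.root,
      Finset.disjoint_right.2 fun _ h => inn_root h⟩),
    fun T' h => c.nd T' (t3 T' h).1, fun T' h => ?_, fun T' h hd => ?_,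
    fun T1 h1 T2 h2 hne d1 d2 => ?_, fun T' h hc T1 h1 d1 hl hs => ?_⟩
  · obtain ⟨a, b⟩ := (hC _).1 h
    exact ⟨⟨Finset.subset_sdiff.2 ⟨(c.cT _ a).1.1,
      Finset.disjoint_left.2 fun v h1 h2 => b ⟨v, h1, h2⟩⟩, (c.cT _ a).1.2⟩, (c.cT _ a).2⟩
  · obtain ⟨a, b⟩ := t3 T' h
    exact (c.hit T' a hd).imp (fun h' => Finset.mem_insert_of_mem (Finset.mem_filter.2 ⟨h', b⟩))
      fun h' => (hC _).2 ⟨h', fun ⟨v, h1, h2⟩ => Finset.disjoint_left.1 b h1 h2⟩
  · obtain ⟨a1, b1⟩ := (hC _).1 h1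
    obtain ⟨a2, b2⟩ := (hC _).1 h2
    obtain ⟨T', hT', hn⟩ := c.uni T1 a1 T2 a2 hne d1 d2
    have : ¬ Lt (Inn G D T0) T' T := fun h' =>
      hn ⟨fun e => (b1 (up lm c hT hT' e h')).elim, fun e => (b2 (up lm c hT hT' e h')).elim⟩
    exact ⟨T', (hC _).2 ⟨hT', this⟩, by
      rwa [lt_out lm c hT b1 hT' this, lt_out lm c hT b2 hT' this]⟩
  · obtain ⟨a, b⟩ := (hC _).1 h
    obtain ⟨a1, b1⟩ := (hC _).1 h1
    obtain ⟨T2, a2, e1, e2⟩ := c.exc T' a hc T1 a1 d1 ((lt_out lm c hT b1 a b).1 hl) hs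
    have b2 : ¬ Lt (Inn G D T0) T2 T := fun h' => b1 (up lm c hT a2 e1 h')
    exact ⟨T2, (hC _).2 ⟨a2, b2⟩, (lt_out lm c hT b1 a2 b2).2 e1, (lt_out lm c hT b2 a b).2 e2⟩

theorem cfg_in (hF : T ∉ F) {C' : Finset (Finset V)}
    (hC : ∀ x, x ∈ C' ↔ x ∈ C ∧ Lt (Inn G D T0) x T) :
    Cfg G (T ∪ Inn G D T0 T) (insert T (F.filter fun f => ¬ Disjoint f (Inn G D T0 T))) T Hb
      C' := by
  have hT3 := (c.cT _ hT).1
  have t3 : ∀ T', T3 G (T ∪ Inn G D T0 T) T' → T3 G D T' :=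
    fun T' h => ⟨h.1.trans (Finset.union_subset hT3.1 inn_sub), h.2⟩
  refine ⟨sp.inn V G D F T0 T c.tri c.root hT3 hF, Finset.mem_insert_self _ _,
    fun T' h => c.nd T' (t3 T' h), fun T' h => ?_, fun T' h hd => ?_,
    fun T1 h1 T2 h2 hne d1 d2 => ?_, fun T' h hc T1 h1 d1 hl hs => ?_⟩
  · obtain ⟨a, b⟩ := (hC _).1 h
    exact ⟨⟨(lm.sub V G D F T0 T' T c.tri c.root (c.cT _ a).1 hT3 b).1, (c.cT _ a).1.2⟩,
      fun e => not_lt_self (e ▸ b)⟩
  · by_cases e : T' = T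
    · exact Or.inl (e ▸ Finset.mem_insert_self _ _)
    obtain ⟨v, v1, v2⟩ := Finset.not_subset.1 (ex_out h.2.card_eq hT3.2.card_eq e)
    have v3 := (Finset.mem_union.1 (h.1 v1)).resolve_left v2
    exact (c.hit T' (t3 T' h) hd).imp (fun h' => Finset.mem_insert_of_mem (Finset.mem_filter.2
      ⟨h', fun b => Finset.disjoint_left.1 b v1 v3⟩)) fun h' => (hC _).2 ⟨h', v, v1, v3⟩
  · obtain ⟨a1, b1⟩ := (hC _).1 h1
    obtain ⟨a2, b2⟩ := (hC _).1 h2
    obtain ⟨T', hT', hn⟩ := c.uni T1 a1 T2 a2 hne d1 d2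
    have key : ∀ X Y, X ∈ C → Lt (Inn G D T0) X T → Lt (Inn G D T0) Y T →
        Lt (Inn G D T0) X T' → ¬ Lt (Inn G D T0) Y T' → Lt (Inn G D T0) T' T := by
      intro X Y x1 x2 y2 x3 y3
      rcases lm.lam V G D F T0 T' T c.tri c.root (c.cT _ hT').1 hT3
        (fun e => y3 (e ▸ y2)) with h | h | h
      · obtain ⟨w, w1, w2⟩ := x2
        have := (lm.sub V G D F T0 X T' c.tri c.root (c.cT _ x1).1 (c.cT _ hT').1 x3).1 w1
        exact ⟨w, (Finset.mem_union.1 this).resolve_right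
          fun e => Finset.disjoint_left.1 h e w2, w2⟩
      · exact h
      · exact (y3 (up lm c hT' hT y2 h)).elim
    have : Lt (Inn G D T0) T' T := by
      by_cases e : Lt (Inn G D T0) T1 T'
      · exact key T1 T2 a1 b1 b2 e fun e' => hn ⟨fun _ => e', fun _ => e⟩
      · exact key T2 T1 a2 b2 b1 (by_contra fun e' => hn ⟨fun x => (e x).elim,
          fun x => (e' x).elim⟩) e
    exact ⟨T', (hC _).2 ⟨hT', this⟩, by rwa [lt_in lm c hT hT' this, lt_in lm c hT hT' this]⟩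
  · obtain ⟨a, b⟩ := (hC _).1 h
    obtain ⟨a1, b1⟩ := (hC _).1 h1
    obtain ⟨T2, a2, e1, e2⟩ := c.exc T' a hc T1 a1 d1 ((lt_in lm c hT a b).1 hl) hs
    have b2 := up lm c hT a e2 b
    exact ⟨T2, (hC _).2 ⟨a2, b2⟩, (lt_in lm c hT a2 b2).2 e1, (lt_in lm c hT a b).2 e2⟩

end

/-- the curve from a path that visits everything -/
theorem cur_of (c : Cfg G D F T0 Hb C) {P : Set (Finset V)} {A B : Finset V}
    (hp : HP (Tk Hb) P A B) (hne : A ≠ B) (hA : St Hb A T0) (hB : St Hb B T0)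
    (h1 : ∀ x ∈ P, x ∈ Ins F T0 Hb C ∨ (x ⊆ T0 ∧ (x.card = 1 ∨ x.card = 2)))
    (h2 : ∀ x ∈ Ins F T0 Hb C, x.card ≠ 2 → x ∈ P) (h3 : ∀ v ∈ T0, v ∉ Hb → {v} ∈ P) :
    ∃ q m, Cur D F T0 Hb q m := by
  obtain ⟨q, m, hq, rfl, rfl, rfl⟩ := hp
  have c0 := (c.tri.face _ c.root).2.card_eq
  refine ⟨q, m, hq, Nat.pos_of_ne_zero fun e => hne (by rw [e]), fun i hi => ?_, hA, hB,
    fun v hv hvH => ?_, fun f hf hf0 hfH => ?_⟩
  · rcases h1 _ ⟨i, hi, rfl⟩ with h | ⟨a, b⟩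
    · exact ⟨h.1, fun e => h.2.1 (by rw [e])⟩
    · exact ⟨mem_cx.2 ⟨T0, c.root, a, Finset.card_pos.1 (by omega)⟩, fun e => by
        rw [e] at b; omega⟩
  · by_cases e : v ∈ T0
    · exact h3 v e hvH
    · exact h2 _ ⟨cx_vertex c.tri hv, by simpa using e, fun _ => by simpa using hvH,
        fun h => by simp at h⟩ (by simp)
  · have cf := (c.tri.face _ hf).2.card_eq
    exact h2 _ ⟨mem_cx.2 ⟨f, hf, subset_rfl, Finset.card_pos.1 (by omega)⟩, ex_out cf c0 hf0,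
      fun h => by omega, fun _ => Or.inl hfH⟩ (by omega)

end ASM

open ASM

theorem asm : StmtASM := by
  intro sp lm base V _ _ G D
  induction hn : D.card using Nat.strong_induction_on generalizing D with
  | _ n ih =>
  classical
  intro F T0 Hb C A B c en
  by_cases hall : ∀ T ∈ C, T ∈ F
  · exact base V G D F T0 Hb C A B c en hall
  push Not at hall
  obtain ⟨T, hT, hF⟩ := hall
  obtain ⟨hT3, hT0⟩ := c.cT T hT
  have cT := hT3.2.card_eq
  have c0 := (c.tri.face _ c.root).2.card_eq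
  have hJ : (Inn G D T0 T).Nonempty := Finset.nonempty_iff_ne_empty.2 fun e =>
    hF ((sp.face V G D F T0 T c.tri c.root hT3 hT0).2 e)
  obtain ⟨C1, hC1⟩ : ∃ C1 : Finset (Finset V), ∀ x, x ∈ C1 ↔ x ∈ C ∧ ¬ Lt (Inn G D T0) x T :=
    ⟨_, fun _ => Finset.mem_filter⟩
  obtain ⟨C2, hC2⟩ : ∃ C2 : Finset (Finset V), ∀ x, x ∈ C2 ↔ x ∈ C ∧ Lt (Inn G D T0) x T :=
    ⟨_, fun _ => Finset.mem_filter⟩
  have c1 := cfg_out sp lm c hT hF hC1
  have c2 := cfg_in sp lm c hT hF hC2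
  obtain ⟨P, ⟨q, m, hq, rfl, rfl, rfl⟩, p1, p2⟩ := ih _
    (hn ▸ Finset.card_lt_card (Finset.sdiff_ssubset inn_sub hJ)) _ rfl _ _ _ _ A B c1
    ⟨en.hA, en.hB, en.ne, fun a1 a2 a3 T1 h1 d1 hs => by
      obtain ⟨b1, b2⟩ := (hC1 _).1 h1
      obtain ⟨T', e1, e2⟩ := en.exc a1 a2 a3 T1 b1 d1 hs
      have b3 : ¬ Lt (Inn G D T0) T' T := fun h' => b2 (up lm c hT e1 e2 h')
      exact ⟨T', (hC1 _).2 ⟨e1, b3⟩, (lt_out lm c hT b2 e1 b3).2 e2⟩⟩
  obtain ⟨i, hi, hiT⟩ := p2 T ⟨mem_cx.2 ⟨T, Finset.mem_insert_self _ _, subset_rfl,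
    Finset.card_pos.1 (by omega)⟩, ex_out cT c0 hT0, fun h => by omega,
    fun _ => Or.inr ((hC1 _).2 ⟨hT, not_lt_self⟩)⟩ (by omega)
  have him : i ≤ m := hi
  have i0 : i ≠ 0 := fun e => by
    have := st_card en.hA
    rw [← e, hiT] at this; omega
  have i1 : i ≠ m := fun e => by
    have := st_card en.hB
    rw [← e, hiT] at this; omega
  obtain ⟨k, rfl⟩ : ∃ k, i = k + 1 := ⟨i - 1, by omega⟩
  have sA : St Hb (q k) T := by
    have := hq.adj k (by omega)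
    rw [hiT] at this
    exact this.resolve_right fun h => by have := st_card h; omega
  have sB : St Hb (q (k + 2)) T := by
    have := hq.adj (k + 1) (by omega)
    rw [hiT] at this
    exact this.resolve_left fun h => by have := st_card h; omega
  obtain ⟨Q, hQ, r1, r2⟩ := ih _ (hn ▸ Finset.card_lt_card ⟨Finset.union_subset hT3.1 inn_sub,
      fun h => by
        obtain ⟨v, v1, v2⟩ := Finset.not_subset.1 (ex_out c0 cT hT0.symm)
        exact (Finset.mem_union.1 (h ((c.tri.face _ c.root).1 v1))).elim v2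
          fun e => inn_root e v1⟩) _ rfl _ _ _ _ (q k) (q (k + 2)) c2
    ⟨sA, sB, fun e => by have := hq.inj _ (by omega) _ (by omega) e; omega,
      fun _ _ a3 T1 h1 d1 hs => by
        obtain ⟨b1, b2⟩ := (hC2 _).1 h1
        obtain ⟨T', e1, e2, e3⟩ := c.exc T hT a3 T1 b1 d1 b2 hs
        exact ⟨T', (hC2 _).2 ⟨e1, e3⟩, (lt_in lm c hT e1 e3).2 e2⟩⟩
  have outer : ∀ j ≤ m, Disjoint (q j) (Inn G D T0 T) := fun j hj => by
    have d0 : Disjoint T0 (Inn G D T0 T) := Finset.disjoint_right.2 fun _ h => inn_root h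
    rcases p1 ⟨j, hj, rfl⟩ with h | h | h
    · obtain ⟨f, f1, f2, -⟩ := mem_cx.1 h.1
      exact (Finset.subset_sdiff.1 (f2.trans (c1.tri.face f f1).1)).2
    · rw [h]; exact d0.mono_left en.hA.1
    · rw [h]; exact d0.mono_left en.hB.1
  have inner : ∀ x ∈ Ins (insert T (F.filter fun f => ¬ Disjoint f (Inn G D T0 T))) T Hb C2,
      ¬ Disjoint x (Inn G D T0 T) := fun x h => by
    obtain ⟨f, f1, f2, -⟩ := mem_cx.1 h.1
    obtain ⟨v, v1, v2⟩ := Finset.not_subset.1 h.2.1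
    exact fun d => Finset.disjoint_left.1 d v1
      ((Finset.mem_union.1 ((c2.tri.face f f1).1 (f2 v1))).resolve_left v2)
  have mix : ∀ j ≤ m, q j ∈ Q → j = k ∨ j = k + 2 := fun j hj h => by
    rcases r1 h with h | h | h
    · exact (inner _ h (outer j hj)).elim
    · exact Or.inl (hq.inj _ hj _ (by omega) h)
    · exact Or.inr (hq.inj _ hj _ (by omega) h)
  have keep : ∀ j ≤ m, j ≠ k + 1 → q j ∈ Ins F T0 Hb C ∪ {q 0, q m} := fun j hj hne => by
    refine (p1 ⟨j, hj, rfl⟩).imp_left fun h => ⟨?_, h.2.1, h.2.2.1, fun e =>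
      (h.2.2.2 e).imp_right fun e' => ((hC1 _).1 e').1⟩
    obtain ⟨f, f1, f2, f3⟩ := mem_cx.1 h.1
    rcases Finset.mem_insert.1 f1 with rfl | f1
    · exact cx_of_sub c.tri hT3 f2 (fun e => hne (hq.inj _ hj _ him (e.trans hiT.symm))) f3
    · exact mem_cx.2 ⟨f, (Finset.mem_filter.1 f1).1, f2, f3⟩
  refine ⟨(q '' Icc 0 k ∪ Q) ∪ q '' Icc (k + 2) m,
    ((hq.hp (Nat.zero_le k) (by omega)).cat hQ ?_).cat (hq.hp (by omega) le_rfl) ?_, ?_, ?_⟩
  · rintro _ ⟨j, hj, rfl⟩ h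
    have := hj.2
    rcases mix j (by omega) h with rfl | rfl
    · rfl
    · omega
  · rintro _ h ⟨j, hj, rfl⟩
    have := hj.1
    rcases h with ⟨l, hl, e⟩ | h
    · have h2 := hl.2
      have := hq.inj _ (by omega) _ hj.2 e
      omega
    · rcases mix j hj.2 h with rfl | rfl
      · omega
      · rfl
  · rintro x ((⟨j, hj, rfl⟩ | h) | ⟨j, hj, rfl⟩)
    · have := hj.2
      exact keep j (by omega) (by omega)
    · rcases r1 h with h | rfl | rfl
      · refine Or.inl ⟨?_, fun e => inner _ h (Finset.disjoint_right.2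
          fun _ a b => inn_root a (e b)), h.2.2.1, fun e =>
          (h.2.2.2 e).imp_right fun e' => ((hC2 _).1 e').1⟩
        obtain ⟨f, f1, f2, f3⟩ := mem_cx.1 h.1
        rcases Finset.mem_insert.1 f1 with rfl | f1
        · exact (h.2.1 f2).elim
        · exact mem_cx.2 ⟨f, (Finset.mem_filter.1 f1).1, f2, f3⟩
      · exact keep k (by omega) (by omega)
      · exact keep (k + 2) (by omega) (by omega)
    · have := hj.1
      exact keep j hj.2 (by omega)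
  · intro x hx h2
    obtain ⟨f, f1, f2, f3⟩ := mem_cx.1 hx.1
    by_cases d : Disjoint x (Inn G D T0 T)
    · obtain ⟨j, hj, rfl⟩ := p2 x ⟨by
          by_cases d' : Disjoint f (Inn G D T0 T)
          · exact mem_cx.2 ⟨f, Finset.mem_insert_of_mem (Finset.mem_filter.2 ⟨f1, d'⟩), f2, f3⟩
          · refine mem_cx.2 ⟨T, Finset.mem_insert_self _ _, fun v hv => ?_, f3⟩
            exact (Finset.mem_union.1 ((c2.tri.face f (Finset.mem_insert_of_mem
              (Finset.mem_filter.2 ⟨f1, d'⟩))).1 (f2 hv))).resolve_right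
              (Finset.disjoint_left.1 d hv),
        hx.2.1, hx.2.2.1, fun e => (hx.2.2.2 e).imp_right fun e' =>
          (hC1 _).2 ⟨e', fun ⟨v, a, b⟩ => Finset.disjoint_left.1 d a b⟩⟩ h2
      have hjm : j ≤ m := hj
      have : j ≠ k + 1 := fun e => by
        rw [e, hiT] at f2
        exact ex_out cT (c.tri.face _ f1).2.card_eq (fun e' => hF (e' ▸ f1)) f2
      by_cases l : j ≤ k
      · exact Or.inl (Or.inl ⟨j, ⟨Nat.zero_le _, l⟩, rfl⟩)
      · exact Or.inr ⟨j, ⟨by omega, hjm⟩, rfl⟩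
    · obtain ⟨v, v1, v2⟩ := Finset.not_disjoint_iff.1 d
      refine Or.inl (Or.inr (r2 x ⟨mem_cx.2 ⟨f, Finset.mem_insert_of_mem (Finset.mem_filter.2
        ⟨f1, fun d' => d (d'.mono_left f2)⟩), f2, f3⟩, fun e => inn_T v2 (e v1), hx.2.2.1,
        fun e => (hx.2.2.2 e).imp_right fun e' => (hC2 _).2 ⟨e', v, v1, v2⟩⟩ h2))

theorem root : StmtROOT := by
  intro sv V _ _ G D F T0 Hb C c
  have t0 := c.tri.face _ c.root
  have c0 := t0.2.card_eq
  have key : ∀ a b d : V, a ≠ b → a ≠ d → b ≠ d → (∀ v, v ∈ T0 ↔ v = a ∨ v = b ∨ v = d) →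
      d ∉ Hb → (b ∈ Hb → a ∈ Hb) → ∃ q m, Cur D F T0 Hb q m := by
    intro a b d ab ad bd e hd hb
    have s1 : ∀ v ∈ T0, v ∉ Hb → St Hb {v} T0 := fun v h1 h2 =>
      ⟨by simpa using h1, Or.inr (Or.inl ⟨by simp, c0, by simpa using h2⟩)⟩
    have ma := (e a).2 (Or.inl rfl)
    have mb := (e b).2 (Or.inr (Or.inl rfl))
    have md := (e d).2 (Or.inr (Or.inr rfl))
    have c2 : ({d, a} : Finset V).card = 2 := Finset.card_pair ad.symm
    have s2 : ({d, a} : Finset V) ⊆ T0 := by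
      intro v hv
      rcases Finset.mem_insert.1 hv with rfl | hv
      · exact md
      · rwa [Finset.mem_singleton.1 hv]
    by_cases h1 : b ∈ Hb
    · have s3 : St Hb {d, a} T0 := ⟨s2, Or.inr (Or.inr ⟨c2, c0, fun h =>
        Finset.disjoint_left.1 h (by simp) (hb h1)⟩)⟩
      have ne : ({d} : Finset V) ≠ {d, a} := fun h => by
        have := congrArg Finset.card h
        rw [c2] at this
        simp at this
      obtain ⟨P, p0, p1, p2⟩ := sv V G D F T0 Hb C {d} {d, a} c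
        ⟨s1 d md hd, s3, ne, fun h => by simp at h⟩
      refine cur_of c p0 ne (s1 d md hd) s3 (fun x hx => (p1 hx).imp_right ?_) p2 fun v hv hH => ?_
      · rintro (rfl | rfl)
        · exact ⟨(s1 d md hd).1, Or.inl (by simp)⟩
        · exact ⟨s2, Or.inr c2⟩
      · rcases (e v).1 hv with rfl | rfl | rfl
        · exact (hH (hb h1)).elim
        · exact (hH h1).elim
        · exact p0.left
    have ne : ({b} : Finset V) ≠ {d} := by simpa using bd
    obtain ⟨P, p0, p1, p2⟩ := sv V G D F T0 Hb C {b} {d} c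
      ⟨s1 b mb h1, s1 d md hd, ne, fun h => by simp at h⟩
    have p3 : ∀ x ∈ P, x ∈ Ins F T0 Hb C ∨ (x ⊆ T0 ∧ (x.card = 1 ∨ x.card = 2)) := fun x hx => by
      refine (p1 hx).imp_right ?_
      rintro (rfl | rfl)
      · exact ⟨(s1 b mb h1).1, Or.inl (by simp)⟩
      · exact ⟨(s1 _ md hd).1, Or.inl (by simp)⟩
    by_cases h2 : a ∈ Hb
    · refine cur_of c p0 ne (s1 b mb h1) (s1 d md hd) p3 p2 fun v hv hH => ?_
      rcases (e v).1 hv with rfl | rfl | rfl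
      · exact (hH h2).elim
      · exact p0.left
      · exact p0.right
    have dj : Disjoint ({d, a} : Finset V) Hb := by simp [hd, h2]
    have n1 : ({d, a} : Finset V) ∉ P := fun h => by
      rcases p1 h with h | h | h
      · exact h.2.1 s2
      · rw [h] at c2; simp at c2
      · rw [h] at c2; simp at c2
    have n2 : ({a} : Finset V) ∉ P := fun h => by
      rcases p1 h with h | h | h
      · exact h.2.1 (s1 a ma h2).1
      · exact ab (Finset.singleton_injective h)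
      · exact ad (Finset.singleton_injective h)
    have j1 := p0.join (hp_single (G := Tk Hb) {d, a}) (disjoint_singleton_right.2 n1)
      (Or.inl ⟨by simp, Or.inl ⟨by simp, c2, dj⟩⟩)
    have j2 := j1.join (hp_single (G := Tk Hb) {a}) (disjoint_singleton_right.2 (by
        rintro (h | h)
        · exact n2 h
        · rw [← mem_singleton_iff.1 h] at c2; simp at c2))
      (Or.inr ⟨by simp, Or.inl ⟨by simp, c2, dj⟩⟩)
    refine cur_of c j2 (by simpa using ab.symm) (s1 b mb h1) (s1 a ma h2) ?_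
      (fun x hx h => Or.inl (Or.inl (p2 x hx h))) fun v hv hH => ?_
    · rintro x ((h | rfl) | rfl)
      · exact p3 x h
      · exact Or.inr ⟨s2, Or.inr c2⟩
      · exact Or.inr ⟨(s1 a ma h2).1, Or.inl (by simp)⟩
    · rcases (e v).1 hv with rfl | rfl | rfl
      · exact Or.inr rfl
      · exact Or.inl (Or.inl p0.left)
      · exact Or.inl (Or.inl p0.right)
  obtain ⟨x, y, z, xy, xz, yz, e⟩ := Finset.card_eq_three.1 c0
  have e' : ∀ v, v ∈ T0 ↔ v = x ∨ v = y ∨ v = z := by simp [e]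
  by_cases hz : z ∈ Hb
  · by_cases hy : y ∈ Hb
    · refine key z y x yz.symm xz.symm xy.symm (fun v => by rw [e']; tauto) (fun hx => ?_)
        fun _ => hz
      refine c.nd T0 t0 fun v hv => ?_
      rcases (e' v).1 hv with rfl | rfl | rfl <;> assumption
    · exact key z x y xz.symm yz.symm xy (fun v => by rw [e']; tauto) hy fun _ => hz
  · by_cases hx : x ∈ Hb
    · exact key x y z xy xz yz e' hz fun _ => hx
    · exact key y x z xy.symm yz xz (fun v => by rw [e']; tauto) hz fun h => (hx h).elim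

end Pool.Agent.MP_856573_co.H74
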